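import Pool.Agent.W670.TL.Defs

set_option autoImplicit false

namespace Pool.Agent.W14.TL

open NumberField Pool.Agent.W670.TL

theorem tors_congr {K L : Type} [Field K] [NumberField K] [Field L] [NumberField L]
    (e : K ≃+* L) (ℓ : ℕ) : tors K ℓ = tors L ℓ := by
  unfold tors
  let f := ClassGroup.mulEquiv (RingOfIntegers.mapRingEquiv e)
  apply Nat.card_congr
  refine Equiv.subtypeEquiv f.toEquiv fun x => ?_
  constructor
  · intro h
    show (f x) ^ ℓ = 1
    rw [← map_pow, h, map_one]
  · intro h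
    have h' : (f x) ^ ℓ = 1 := h
    rw [← map_pow] at h'
    exact (map_eq_one_iff f f.injective).1 h'

theorem mod : S_MOD := by
  intro K _ _
  let σ : K →ₐ[ℚ] AlgebraicClosure ℚ := IsAlgClosed.lift
  let e : K ≃ₐ[ℚ] σ.fieldRange := AlgEquiv.ofInjectiveField σ
  have hnf : NumberField σ.fieldRange := NumberField.of_ringEquiv K _ e.toRingEquiv
  refine ⟨σ.fieldRange, hnf, ?_, ?_, fun ℓ => ?_⟩
  · exact e.toLinearEquiv.finrank_eq.symm
  · unfold D
    rw [NumberField.discr_eq_discr_of_algEquiv K e]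
  · exact (tors_congr e.toRingEquiv ℓ).symm

end Pool.Agent.W14.TL
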